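import Mathlib
import Pool.Agent.H379Z.RB.DHard
import Pool.Agent.H379Z.RB.DMem

/-!
# The red-blue cut problem in directed graphs is NP-complete

Complexity notions are those of `Pool.Agent.NPC.Defs`: polynomial time is the polynomial time of
the Turing machines of Mathlib on bit strings, `NP` is defined by certificates, hardness is under
polynomial-time many-one reductions, and data (numbers in binary, pairs, lists) are coded by bit
strings.

The reduction is from the clique problem through the undirected red-blue `s`-`t` cut problem:
edges become pairs of opposite arcs; a large set of new vertices, to which all vertices send red
arcs, forces `s` into the cut, and a second one, from which all vertices receive red arcs, forces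
`t` out of it.
-/

namespace Pool.Agent.Results.MP_ac2b6c_lc.ANPComplete

open Pool.Agent.NPC Pool.Agent.H379Z.RB

/-- The red-blue cut problem in finite simple digraphs (cuts determined by arbitrary nonempty
proper subsets of the vertex set) is in `NP` and is `NP`-hard under polynomial-time many-one
reductions. -/
theorem result : InNPP DirRedBlueCut ∧ NPHardP DirRedBlueCut :=
  ⟨inNP_dirRedBlueCut, npHard_dirRedBlueCut⟩

end Pool.Agent.Results.MP_ac2b6c_lc.ANPComplete
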